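import Mathlib

/-!
Triangle-free graphs and their complements: arrowing `K₃` versus `G` (helper119).
-/

namespace Q119.KG

open SimpleGraph Finset

variable {W W' : Type} {α : Type}

/-- in every triangle-free graph `R` on at least `M` vertices, the complement contains `G` -/
def Ar (G : SimpleGraph W) (M : ℕ) : Prop :=
  ∀ (V : Type) [Fintype V] (R : SimpleGraph V), M ≤ Fintype.card V → R.CliqueFree 3 → G ⊑ Rᶜ

lemma Ar.mono {G : SimpleGraph W} {M M' : ℕ} (h : Ar G M) (hM : M ≤ M') : Ar G M' :=
  fun V _ R hV hR => h V R (hM.trans hV) hR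

lemma Ar.of_contained {G : SimpleGraph W} {G' : SimpleGraph W'} {M : ℕ} (h : Ar G M)
    (hG : G' ⊑ G) : Ar G' M :=
  fun V _ R hV hR => hG.trans (h V R hV hR)

/-- a copy from a function -/
lemma contained_of {V : Type} {G : SimpleGraph W} {R : SimpleGraph V} (f : W → V)
    (hf : Function.Injective f) (h : ∀ a b, G.Adj a b → ¬ R.Adj (f a) (f b)) : G ⊑ Rᶜ := by
  refine ⟨⟨⟨f, ?_⟩, hf⟩⟩
  intro a b hab
  rw [compl_adj]
  exact ⟨fun e => G.ne_of_adj hab (hf e), h a b hab⟩

lemma exists_of_contained {V : Type} {G : SimpleGraph W} {R : SimpleGraph V} (h : G ⊑ Rᶜ) :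
    ∃ f : W → V, Function.Injective f ∧ ∀ a b, G.Adj a b → ¬ R.Adj (f a) (f b) := by
  obtain ⟨f⟩ := h
  refine ⟨f, f.injective, ?_⟩
  intro a b hab
  have := f.toHom.map_rel hab
  exact (compl_adj _ _ _ |>.1 this).2

lemma contained_of_comap {V V' : Type} {G : SimpleGraph W} {R : SimpleGraph V} (e : V' → V)
    (he : Function.Injective e) (h : G ⊑ (R.comap e)ᶜ) : G ⊑ Rᶜ := by
  obtain ⟨f, hf, hf'⟩ := exists_of_contained h
  exact contained_of (e ∘ f) (he.comp hf) fun a b hab => hf' a b hab

lemma cliqueFree_comap {V V' : Type} {R : SimpleGraph V} (e : V' → V)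
    (he : Function.Injective e) (h : R.CliqueFree 3) : (R.comap e).CliqueFree 3 := by
  exact h.comap ⟨⟨⟨e, fun {a b} hab => hab⟩, he⟩⟩

/-- it suffices to treat graphs with exactly `M` vertices -/
lemma Ar.of_exact {G : SimpleGraph W} {M : ℕ}
    (h : ∀ (V : Type) [Fintype V] (R : SimpleGraph V), Fintype.card V = M → R.CliqueFree 3 →
      G ⊑ Rᶜ) : Ar G M := by
  intro V _ R hV hR
  obtain ⟨e⟩ : Nonempty (Fin M ↪ V) := by
    rw [Function.Embedding.nonempty_iff_card_le]
    simpa using hV
  exact contained_of_comap e e.injective (h (Fin M) _ (by simp) (cliqueFree_comap e e.injective hR))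

lemma no_triangle {V : Type} {R : SimpleGraph V} (h : R.CliqueFree 3) {a b c : V}
    (hab : R.Adj a b) (hac : R.Adj a c) (hbc : R.Adj b c) : False := by
  classical
  exact h {a, b, c} (is3Clique_triple_iff.2 ⟨hab, hac, hbc⟩)

/-- from a large independent set -/
lemma contained_of_indep {V : Type} [Fintype W] {G : SimpleGraph W} {R : SimpleGraph V}
    (S : Finset V) (hS : Fintype.card W ≤ S.card) (hind : ∀ a ∈ S, ∀ b ∈ S, ¬ R.Adj a b) :
    G ⊑ Rᶜ := by
  obtain ⟨e⟩ : Nonempty (W ↪ S) := by
    rw [Function.Embedding.nonempty_iff_card_le]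
    simpa using hS
  exact contained_of (fun w => (e w : V)) (Subtype.val_injective.comp e.injective)
    fun a b _ => hind _ (e a).2 _ (e b).2

lemma ar_top (k : ℕ) : Ar (⊤ : SimpleGraph (Fin k)) (k * (k + 1) / 2) := by
  induction k with
  | zero =>
    intro V _ R _ _
    exact contained_of (fun i => i.elim0) (fun i => i.elim0) (fun i => i.elim0)
  | succ k ih =>
    intro V _ R hV hR
    classical
    have hT : (k + 1) * (k + 1 + 1) / 2 = k * (k + 1) / 2 + (k + 1) := by
      have : (k + 1) * (k + 1 + 1) = k * (k + 1) + (k + 1) * 2 := by ring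
      rw [this, Nat.add_mul_div_right _ _ (by norm_num)]
    rw [hT] at hV
    by_cases hdeg : ∃ v, k + 1 ≤ R.degree v
    · obtain ⟨v, hv⟩ := hdeg
      refine contained_of_indep (R.neighborFinset v) (by simpa using hv) ?_
      intro a ha b hb hab
      rw [mem_neighborFinset] at ha hb
      exact no_triangle hR ha hb hab
    · push Not at hdeg
      have hne : Nonempty V := by
        rw [← Fintype.card_pos_iff]; omega
      obtain ⟨v⟩ := hne
      have hcard : k * (k + 1) / 2 ≤ Fintype.card {w // w ≠ v ∧ ¬ R.Adj v w} := by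
        rw [Fintype.card_subtype]
        have h1 : (Finset.univ.filter fun w => w ≠ v ∧ ¬ R.Adj v w) =
            (insert v (R.neighborFinset v))ᶜ := by
          ext w
          simp only [mem_filter, mem_univ, true_and, mem_compl, mem_insert, mem_neighborFinset,
            not_or, ne_eq]
        rw [h1, card_compl, card_insert_of_notMem (by simp), card_neighborFinset_eq_degree]
        have := hdeg v
        omega
      have h2 := ih {w // w ≠ v ∧ ¬ R.Adj v w} (R.comap Subtype.val) hcard
        (cliqueFree_comap _ Subtype.val_injective hR)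
      obtain ⟨f, hf, hf'⟩ := exists_of_contained h2
      refine contained_of (Fin.cons v fun i => (f i : V)) ?_ ?_
      · rw [Fin.cons_injective_iff]
        refine ⟨?_, Subtype.val_injective.comp hf⟩
        rintro ⟨i, hi⟩
        exact (f i).2.1 hi
      · intro a b hab
        refine Fin.cases ?_ (fun i => ?_) a <;> refine Fin.cases ?_ (fun j => ?_) b
        · simp
        · simp only [Fin.cons_zero, Fin.cons_succ]
          exact (f j).2.2
        · simp only [Fin.cons_zero, Fin.cons_succ]
          intro h
          exact (f i).2.2 h.symm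
        · simp only [Fin.cons_succ]
          by_cases hij : i = j
          · subst hij; simp
          · exact hf' i j (by simpa using hij)

lemma ar_exists [Fintype W] (G : SimpleGraph W) : ∃ M, Ar G M := by
  refine ⟨_, (ar_top (Fintype.card W)).of_contained ?_⟩
  rw [isContained_top_iff]
  exact ⟨(Fintype.equivFin W).toEmbedding⟩

/-- padding by isolated vertices -/
lemma Ar.pad [Fintype W] {G : SimpleGraph W} {M m : ℕ} (h : Ar G M)
    (hM : Fintype.card W + m ≤ M) : Ar (G ⊕g (⊥ : SimpleGraph (Fin m))) M := by
  intro V _ R hV hR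
  classical
  obtain ⟨f, hf, hf'⟩ := exists_of_contained (h V R hV hR)
  have hc : m ≤ (Finset.univ.image f)ᶜ.card := by
    rw [card_compl, card_image_of_injective _ hf, card_univ]
    omega
  obtain ⟨e⟩ : Nonempty (Fin m ↪ ((Finset.univ.image f)ᶜ : Finset V)) := by
    rw [Function.Embedding.nonempty_iff_card_le, Fintype.card_fin, Fintype.card_coe]
    exact hc
  refine contained_of (Sum.elim f fun i => (e i : V)) ?_ ?_
  · refine hf.sumElim (Subtype.val_injective.comp e.injective) ?_
    intro a b hab
    have := (e b).2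
    rw [mem_compl, mem_image] at this
    exact this ⟨a, mem_univ _, hab⟩
  · rintro (a | a) (b | b) hab
    · exact hf' a b (by simpa using hab)
    · simp at hab
    · simp at hab
    · simp at hab

end Q119.KG
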