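import Pool.Agent.Q119.KG.Union

/-!
Beating every cone over a union of cliques (helper119).
-/

namespace Q119.KG

open SimpleGraph Finset

/-- a connected graph with `N+1` vertices, more than `N + q` edges and `r(K₃, G) ≤ 2N+1` -/
def Better (N q : ℕ) : Prop :=
  ∃ (V : Type) (_ : Fintype V) (G : SimpleGraph V), Fintype.card V = N + 1 ∧ G.Connected ∧
    Ar G (2 * N + 1) ∧ N + q < e G

lemma better_of_cone {α : Type} [Fintype α] {K : SimpleGraph α} {N q : ℕ}
    (hN : Fintype.card α = N) (h : Ar K (2 * N - 2 * (2 * N + 1) / 5)) (hq : q < e K) :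
    Better N q := by
  refine ⟨Option α, inferInstance, cone K, by rw [Fintype.card_option, hN], cone_connected K,
    h.cone N hN, ?_⟩
  rw [e_cone, hN]
  omega

lemma card_sig {ι : Type} [Fintype ι] (s : ι → ℕ) :
    Fintype.card (Σ i, Fin (s i)) = ∑ i, s i := by
  rw [Fintype.card_sigma]; simp

/-- adding a disjoint edge -/
lemma better_caseA {ι : Type} [Fintype ι] (s : ι → ℕ) (N : ℕ) (hN : 3 ≤ N)
    (hu : ∑ i, s i + 2 ≤ N) (h : Ar (cliqueUnion s) N) : Better N (∑ i, (s i).choose 2) := by
  have h1 : Ar (cliqueUnion s ⊕g (⊤ : SimpleGraph (Fin 2))) (2 * N - 2 * (2 * N + 1) / 5) :=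
    h.addK2 (by omega) (by rw [card_sig]; omega)
  have h2 := h1.pad (m := N - (∑ i, s i + 2)) (by
    rw [Fintype.card_sum, card_sig, Fintype.card_fin]; omega)
  refine better_of_cone ?_ h2 ?_
  · rw [Fintype.card_sum, Fintype.card_sum, card_sig, Fintype.card_fin, Fintype.card_fin]
    omega
  · rw [e_sum, e_sum, e_bot, e_top, e_union]
    have : Nat.choose 2 2 = 1 := rfl
    omega

/-- adding a pendant edge at a component of order two -/
lemma better_caseB {ι : Type} [Fintype ι] (s : ι → ℕ) (N : ℕ) (hN : 8 ≤ N)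
    (hu : ∑ i, s i + 1 = N) (i₀ : ι) (hi : s i₀ = 2) (h : Ar (cliqueUnion s) N) :
    Better N (∑ i, (s i).choose 2) := by
  have hadj : ∀ w : Σ i, Fin (s i), (cliqueUnion s).Adj ⟨i₀, ⟨0, by omega⟩⟩ w →
      w = ⟨i₀, ⟨1, by omega⟩⟩ := by
    rintro ⟨j, x⟩ ⟨h1, h2⟩
    simp only at h1
    subst h1
    have : x.val ≠ 0 := by
      intro hx
      apply h2
      congr 1
      exact Fin.ext hx.symm
    have := x.2
    congr 1
    exact Fin.ext (by simp only; omega)
  have hadj' : ∀ w : Σ i, Fin (s i), (cliqueUnion s).Adj ⟨i₀, ⟨1, by omega⟩⟩ w →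
      w = ⟨i₀, ⟨0, by omega⟩⟩ := by
    rintro ⟨j, x⟩ ⟨h1, h2⟩
    simp only at h1
    subst h1
    have : x.val ≠ 1 := by
      intro hx
      apply h2
      congr 1
      exact Fin.ext hx.symm
    have := x.2
    congr 1
    exact Fin.ext (by simp only; omega)
  have h0 : (cliqueUnion s).Adj ⟨i₀, ⟨0, by omega⟩⟩ ⟨i₀, ⟨1, by omega⟩⟩ :=
    ⟨rfl, by simp⟩
  have h1 := Ar.pend h0 hadj hadj' (M := 2 * N - 2 * (2 * N + 1) / 5) h (by omega)
    (by rw [card_sig]; omega)
  refine better_of_cone ?_ h1 ?_
  · rw [Fintype.card_sum, card_sig, Fintype.card_fin]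
    omega
  · rw [e_pend, e_union]
    omega

lemma sum_choose_le {ι : Type} (S : Finset ι) (s : ι → ℕ) :
    ∑ i ∈ S, (s i).choose 2 ≤ (∑ i ∈ S, s i).choose 2 := by
  classical
  induction S using Finset.induction_on with
  | empty => simp
  | insert a S ha ih =>
    rw [sum_insert ha, sum_insert ha]
    have h : ∀ x y : ℕ, x.choose 2 + y.choose 2 ≤ (x + y).choose 2 := by
      intro x y
      induction y with
      | zero => simp
      | succ y ih =>
        have h1 : (y + 1).choose 2 = y.choose 1 + y.choose 2 := Nat.choose_succ_succ y 1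
        have h2 : (x + (y + 1)).choose 2 = (x + y).choose 1 + (x + y).choose 2 :=
          Nat.choose_succ_succ (x + y) 1
        rw [Nat.choose_one_right] at h1 h2
        omega
    exact (Nat.add_le_add_left ih _).trans (h _ _)

/-- the cycle of length `n + 1` on `Fin (n + 1)` -/
def cyc (n : ℕ) : SimpleGraph (Fin (n + 1)) where
  Adj i j := i ≠ j ∧ (j = i + 1 ∨ i = j + 1)
  symm := ⟨fun _ _ h => ⟨h.1.symm, h.2.symm⟩⟩
  loopless := ⟨fun _ h => h.1 rfl⟩

instance (n : ℕ) : DecidableRel (cyc n).Adj := fun _ _ => by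
  unfold cyc; simp only; infer_instance

/-- distinct and nonadjacent on the cycle -/
def ind (n : ℕ) (i j : Fin (n + 1)) : Prop := i ≠ j ∧ ¬ (cyc n).Adj i j

instance (n : ℕ) : DecidableRel (ind n) := fun _ _ => by
  unfold ind; infer_instance

lemma cliqueFree_of {V : Type} (R : SimpleGraph V)
    (h : ∀ a b c, R.Adj a b → R.Adj a c → ¬ R.Adj b c) : R.CliqueFree 3 := by
  classical
  intro t ht
  obtain ⟨a, b, c, h1, h2, h3, -⟩ := is3Clique_iff.1 ht
  exact h a b c h1 h2 h3

/-- the cycle of length seven -/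
lemma not_ar_four_seven : ¬ Ar (⊤ : SimpleGraph (Fin 4)) 7 := by
  intro h
  have h1 : (cyc 6).CliqueFree 3 := cliqueFree_of _ (by decide)
  obtain ⟨f, hf, hf'⟩ := exists_of_contained (h (Fin 7) (cyc 6) (by simp) h1)
  have h2 : ∀ a b : Fin 7, ind 6 a b → ∀ c : Fin 7, ind 6 a c → ind 6 b c →
      ∀ d : Fin 7, ind 6 a d → ind 6 b d → ¬ ind 6 c d := by decide
  have h3 : ∀ i j : Fin 4, i ≠ j → ind 6 (f i) (f j) := fun i j hij =>
    ⟨fun he => hij (hf he), hf' i j (by simpa using hij)⟩
  exact h2 (f 0) (f 1) (h3 _ _ (by decide)) (f 2) (h3 _ _ (by decide)) (h3 _ _ (by decide)) (f 3)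
    (h3 _ _ (by decide)) (h3 _ _ (by decide)) (h3 _ _ (by decide))

/-- the cycle of length five -/
lemma not_ar_three_five : ¬ Ar (⊤ : SimpleGraph (Fin 3)) 5 := by
  intro h
  have h1 : (cyc 4).CliqueFree 3 := cliqueFree_of _ (by decide)
  obtain ⟨f, hf, hf'⟩ := exists_of_contained (h (Fin 5) (cyc 4) (by simp) h1)
  have h2 : ∀ a b : Fin 5, ind 4 a b → ∀ c : Fin 5, ind 4 a c → ¬ ind 4 b c := by decide
  have h3 : ∀ i j : Fin 3, i ≠ j → ind 4 (f i) (f j) := fun i j hij =>
    ⟨fun he => hij (hf he), hf' i j (by simpa using hij)⟩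
  exact h2 (f 0) (f 1) (h3 _ _ (by decide)) (f 2) (h3 _ _ (by decide)) (h3 _ _ (by decide))

/-! ### Small cases and the main lemma -/

lemma better_three (q : ℕ) (hq : q ≤ 1) : Better 3 q :=
  ⟨Fin 4, inferInstance, book, by simp, by
    rw [connected_iff_exists_forall_reachable]
    refine ⟨0, fun w => ?_⟩
    by_cases hw : w = 0
    · rw [hw]
    · exact Adj.reachable ⟨fun h => hw h.symm, Or.inl (by decide)⟩, ar_book, by
    rw [e_book]; omega⟩

/-- the main lemma: unions of cliques of order at least two are beaten -/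
theorem better_main {ι : Type} [Fintype ι] (s : ι → ℕ) (N : ℕ) (hN : 3 ≤ N)
    (hs : ∀ i, 2 ≤ s i) (h : Ar (cliqueUnion s) N) : Better N (∑ i, (s i).choose 2) := by
  have hsum := sum_choose_le Finset.univ s
  by_cases h0 : ∑ i, s i + 2 ≤ N
  · exact better_caseA s N hN h0 h
  · push Not at h0
    have hu1 : ∑ i, s i + 1 ≤ N := by
      have := lower_union s 2 N (by norm_num) hs (by omega) h
      omega
    have hu : ∑ i, s i + 1 = N := by omega
    have h2 : ∃ i₀, s i₀ = 2 := by
      by_contra hcon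
      push Not at hcon
      have := lower_union s 3 N (by norm_num) (fun i => by
        have := hs i
        have := hcon i
        omega) (by omega) h
      omega
    obtain ⟨i₀, hi₀⟩ := h2
    by_cases h8 : 8 ≤ N
    · exact better_caseB s N h8 hu i₀ hi₀ h
    · classical
      have hrest : ∑ i, s i = 2 + ∑ i ∈ Finset.univ.erase i₀, s i := by
        rw [← hi₀, Finset.add_sum_erase _ _ (mem_univ i₀)]
      have hrest2 : ∑ i, (s i).choose 2 = 1 + ∑ i ∈ Finset.univ.erase i₀, (s i).choose 2 := by
        rw [← Finset.add_sum_erase _ _ (mem_univ i₀), hi₀]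
        rfl
      have hsum2 := sum_choose_le (Finset.univ.erase i₀) s
      have hN' : N = 3 ∨ N = 4 ∨ N = 5 ∨ N = 6 ∨ N = 7 := by omega
      rcases hN' with rfl | rfl | rfl | rfl | rfl
      · -- `N = 3`
        refine better_three _ ?_
        have : ∑ i ∈ Finset.univ.erase i₀, s i = 0 := by omega
        have h4 : Nat.choose 0 2 = 0 := rfl
        rw [this, h4] at hsum2
        omega
      · -- `N = 4`
        exfalso
        have h3 : ∑ i ∈ Finset.univ.erase i₀, s i = 1 := by omega
        have h4 : ∀ i ∈ Finset.univ.erase i₀, False := by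
          intro i hi
          have := Finset.single_le_sum (f := s) (fun _ _ => Nat.zero_le _) hi
          have := hs i
          omega
        rw [Finset.sum_eq_zero (fun i hi => (h4 i hi).elim)] at h3
        omega
      · -- `N = 5`
        have h3 : ∑ i ∈ Finset.univ.erase i₀, s i = 2 := by omega
        rw [h3] at hsum2
        have h4 : Nat.choose 2 2 = 1 := rfl
        have h5 : Ar ((⊤ : SimpleGraph (Fin 3)) ⊕g (⊤ : SimpleGraph (Fin 2)))
            (2 * 5 - 2 * (2 * 5 + 1) / 5) :=
          (ar_top 3).addK2 (by norm_num) (by simp)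
        refine better_of_cone (by simp) h5 ?_
        rw [e_sum, e_top, e_top]
        have : Nat.choose 3 2 = 3 := rfl
        omega
      · -- `N = 6`
        have h3 : ∑ i ∈ Finset.univ.erase i₀, s i = 3 := by omega
        rw [h3] at hsum2
        have h4 : Nat.choose 3 2 = 3 := rfl
        have h5 : Ar (book ⊕g (⊥ : SimpleGraph (Fin 2)))
            (2 * 6 - 2 * (2 * 6 + 1) / 5) :=
          ar_book.pad (by simp)
        refine better_of_cone (by simp) h5 ?_
        rw [e_sum, e_book, e_bot]
        omega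
      · -- `N = 7`
        have h3 : ∑ i ∈ Finset.univ.erase i₀, s i = 4 := by omega
        have h4 : ∀ i, s i ≤ 3 := by
          intro i
          by_contra hcon
          push Not at hcon
          refine not_ar_four_seven (h.of_contained ?_)
          refine ⟨⟨⟨fun x => ⟨i, ⟨x.val, by omega⟩⟩, ?_⟩, ?_⟩⟩
          · intro a b hab
            refine ⟨rfl, fun he => ?_⟩
            exact (top_adj a b).1 hab (Fin.ext (Fin.mk.inj_iff.1
              (eq_of_heq (Sigma.mk.inj_iff.1 he).2)))
          · intro a b hab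
            exact Fin.ext (Fin.mk.inj_iff.1 (eq_of_heq (Sigma.mk.inj_iff.1 hab).2))
        have h5 : ∀ i, (s i).choose 2 ≤ s i := by
          intro i
          have := h4 i
          have := hs i
          have : s i = 2 ∨ s i = 3 := by omega
          rcases this with h | h <;> rw [h] <;> decide
        have h6 : ∑ i ∈ Finset.univ.erase i₀, (s i).choose 2 ≤
            ∑ i ∈ Finset.univ.erase i₀, s i := Finset.sum_le_sum fun i _ => h5 i
        have h7 : Ar ((book ⊕g (⊤ : SimpleGraph (Fin 2))) ⊕g (⊥ : SimpleGraph (Fin 1)))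
            (2 * 7 - 2 * (2 * 7 + 1) / 5) :=
          (ar_book.addK2 (M := 2 * 7 - 2 * (2 * 7 + 1) / 5) (by norm_num) (by simp)).pad (by simp)
        refine better_of_cone (by simp) h7 ?_
        rw [e_sum, e_sum, e_book, e_top, e_bot]
        have : Nat.choose 2 2 = 1 := rfl
        omega

end Q119.KG
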