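import Pool.Agent.Q119.KG.Basic

/-!
Adding an edge, the cone over a graph, the graph `K₄ - e` (helper119).
-/

namespace Q119.KG

open SimpleGraph Finset

variable {W W' : Type} {α : Type}

/-- three vertices are never pairwise red -/
lemma exists_nonadj {V : Type} {R : SimpleGraph V} (hR : R.CliqueFree 3) (S : Finset V)
    (hS : 3 ≤ S.card) : ∃ a ∈ S, ∃ b ∈ S, a ≠ b ∧ ¬ R.Adj a b := by
  classical
  obtain ⟨a, b, c, ha, hb, hc, hab, hac, hbc⟩ := Finset.two_lt_card_iff.1 (show 2 < S.card by omega)
  by_contra hcon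
  push Not at hcon
  exact no_triangle hR (hcon a ha b hb hab) (hcon a ha c hc hac) (hcon b hb c hc hbc)

/-- adding a disjoint edge -/
lemma Ar.addK2 [Fintype W] {G : SimpleGraph W} {M M' : ℕ} (h : Ar G M') (hM' : M' ≤ M)
    (hM : Fintype.card W + 3 ≤ M) : Ar (G ⊕g (⊤ : SimpleGraph (Fin 2))) M := by
  intro V _ R hV hR
  classical
  obtain ⟨f, hf, hf'⟩ := exists_of_contained (h V R (hM'.trans hV) hR)
  have hc : 3 ≤ (Finset.univ.image f)ᶜ.card := by
    rw [card_compl, card_image_of_injective _ hf, card_univ]
    omega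
  obtain ⟨x, hx, y, hy, hxy, hxy'⟩ := exists_nonadj hR _ hc
  have hx' : ∀ w, f w ≠ x := by
    intro w hw
    rw [mem_compl, mem_image] at hx
    exact hx ⟨w, mem_univ _, hw⟩
  have hy' : ∀ w, f w ≠ y := by
    intro w hw
    rw [mem_compl, mem_image] at hy
    exact hy ⟨w, mem_univ _, hw⟩
  refine contained_of (Sum.elim f ![x, y]) ?_ ?_
  · refine hf.sumElim ?_ ?_
    · intro i j hij
      fin_cases i <;> fin_cases j <;> simp_all
    · intro a b
      fin_cases b
      · exact hx' a
      · exact hy' a
  · rintro (a | a) (b | b) hab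
    · exact hf' a b (by simpa using hab)
    · simp at hab
    · simp at hab
    · fin_cases a <;> fin_cases b
      · simp at hab
      · simpa using hxy'
      · simpa using fun h => hxy' (SimpleGraph.Adj.symm h)
      · simp at hab

/-- the cone `K₁ + K` -/
def cone (K : SimpleGraph α) : SimpleGraph (Option α) where
  Adj x y := match x, y with
    | none, none => False
    | none, some _ => True
    | some _, none => True
    | some a, some b => K.Adj a b
  symm := ⟨by
    rintro (_ | a) (_ | b) h
    · exact h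
    · trivial
    · trivial
    · exact SimpleGraph.Adj.symm (G := K) h⟩
  loopless := ⟨by
    rintro (_ | a) h
    · exact h
    · exact K.ne_of_adj h rfl⟩

lemma cone_connected (K : SimpleGraph α) : (cone K).Connected := by
  rw [connected_iff_exists_forall_reachable]
  refine ⟨none, ?_⟩
  rintro (_ | a)
  · exact Reachable.refl _
  · exact Adj.reachable (by trivial)

/-- the main upper bound: if `K` has `N` vertices and is found in every triangle-free graph on
`2N - ⌊2(2N+1)/5⌋` vertices, then the cone is found in every such graph on `2N+1` vertices -/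
lemma Ar.cone [Fintype α] {K : SimpleGraph α} (N : ℕ) (hN : Fintype.card α = N)
    (h : Ar K (2 * N - 2 * (2 * N + 1) / 5)) : Ar (cone K) (2 * N + 1) := by
  apply Ar.of_exact
  intro V _ R hV hR
  classical
  by_cases hd : 2 * Fintype.card V / 5 < R.minDegree
  · have hcol : R.Colorable 2 := colorable_of_cliqueFree_lt_minDegree (r := 2) hR (by simpa using hd)
    obtain ⟨C⟩ := hcol
    obtain ⟨c, hc⟩ : ∃ c : Fin 2, N + 1 ≤ (Finset.univ.filter fun v => C v = c).card := by
      by_contra hcon
      push Not at hcon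
      have h1 : Fintype.card V = ∑ c : Fin 2, (Finset.univ.filter fun v => C v = c).card := by
        rw [← Finset.card_univ]
        exact Finset.card_eq_sum_card_fiberwise (fun _ _ => mem_univ _)
      rw [Fin.sum_univ_two] at h1
      have h2 := hcon 0
      have h3 := hcon 1
      omega
    refine contained_of_indep _ (by rw [Fintype.card_option, hN]; exact hc) ?_
    intro a ha b hb hab
    rw [mem_filter] at ha hb
    exact C.valid hab (ha.2.trans hb.2.symm)
  · push Not at hd
    have : Nonempty V := by rw [← Fintype.card_pos_iff]; omega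
    obtain ⟨v, hv⟩ := R.exists_minimal_degree_vertex
    have hcard : 2 * N - 2 * (2 * N + 1) / 5 ≤ Fintype.card {w // w ≠ v ∧ ¬ R.Adj v w} := by
      rw [Fintype.card_subtype]
      have h1 : (Finset.univ.filter fun w => w ≠ v ∧ ¬ R.Adj v w) =
          (insert v (R.neighborFinset v))ᶜ := by
        ext w
        simp only [mem_filter, mem_univ, true_and, mem_compl, mem_insert, mem_neighborFinset,
          not_or, ne_eq]
      rw [h1, card_compl, card_insert_of_notMem (by simp), card_neighborFinset_eq_degree, ← hv, hV]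
      rw [hV] at hd
      omega
    have h2 := h {w // w ≠ v ∧ ¬ R.Adj v w} (R.comap Subtype.val) hcard
      (cliqueFree_comap _ Subtype.val_injective hR)
    obtain ⟨f, hf, hf'⟩ := exists_of_contained h2
    refine contained_of (fun x : Option α => x.elim v fun i => (f i : V)) ?_ ?_
    · rintro (_ | a) (_ | b) hab
      · rfl
      · exact absurd hab.symm (f b).2.1
      · exact absurd hab (f a).2.1
      · exact congrArg some (hf (Subtype.val_injective hab))
    · rintro (_ | a) (_ | b) hab
      · exact R.irrefl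
      · exact (f b).2.2
      · exact fun h => (f a).2.2 h.symm
      · exact hf' a b hab

/-- `K₄` minus an edge -/
def book : SimpleGraph (Fin 4) where
  Adj i j := i ≠ j ∧ (i.val ≤ 1 ∨ j.val ≤ 1)
  symm := ⟨fun i j h => ⟨h.1.symm, h.2.symm⟩⟩
  loopless := ⟨fun i h => h.1 rfl⟩

lemma book_contained {V : Type} {R : SimpleGraph V} {p q x y : V} (hpq : p ≠ q) (hpx : p ≠ x)
    (hpy : p ≠ y) (hqx : q ≠ x) (hqy : q ≠ y) (hxy : x ≠ y) (h1 : ¬ R.Adj p q)
    (h2 : ¬ R.Adj p x) (h3 : ¬ R.Adj p y) (h4 : ¬ R.Adj q x) (h5 : ¬ R.Adj q y) : book ⊑ Rᶜ := by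
  refine contained_of ![p, q, x, y] ?_ ?_
  · intro i j hij
    fin_cases i <;> fin_cases j <;> simp_all
  · have h1' : ¬ R.Adj q p := fun h => h1 h.symm
    have h2' : ¬ R.Adj x p := fun h => h2 h.symm
    have h3' : ¬ R.Adj y p := fun h => h3 h.symm
    have h4' : ¬ R.Adj x q := fun h => h4 h.symm
    have h5' : ¬ R.Adj y q := fun h => h5 h.symm
    rintro i j ⟨hij, hor⟩
    fin_cases i <;> fin_cases j <;> simp_all

lemma ar_book : Ar book 7 := by
  apply Ar.of_exact
  intro V _ R hV hR
  classical
  by_contra hbook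
  have key : ∀ p q x y : V, p ≠ q → p ≠ x → p ≠ y → q ≠ x → q ≠ y → x ≠ y →
      ¬ R.Adj p q → ¬ R.Adj p x → ¬ R.Adj p y → ¬ R.Adj q x → ¬ R.Adj q y → False :=
    fun _ _ _ _ a b c d e f g h i j k => hbook (book_contained a b c d e f g h i j k)
  -- no vertex of red degree at least 4
  have hdeg : ∀ v, R.degree v ≤ 3 := by
    intro v
    by_contra hcon
    push Not at hcon
    refine hbook (contained_of_indep (R.neighborFinset v)
      (by rw [card_neighborFinset_eq_degree, Fintype.card_fin]; omega) ?_)
    intro a ha b hb hab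
    rw [mem_neighborFinset] at ha hb
    exact no_triangle hR ha hb hab
  -- some vertex of red degree at most 2
  obtain ⟨v, hv⟩ : ∃ v, R.degree v ≤ 2 := by
    by_contra hcon
    push Not at hcon
    have h3 : ∀ v, R.degree v = 3 := fun v => le_antisymm (hdeg v) (hcon v)
    have := R.sum_degrees_eq_twice_card_edges
    simp only [h3, sum_const, card_univ, hV, smul_eq_mul] at this
    omega
  -- its blue neighbourhood
  set S : Finset V := (insert v (R.neighborFinset v))ᶜ with hS
  have hScard : 4 ≤ S.card := by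
    rw [hS, card_compl, card_insert_of_notMem (by simp), card_neighborFinset_eq_degree, hV]
    omega
  have hSmem : ∀ w ∈ S, w ≠ v ∧ ¬ R.Adj v w := by
    intro w hw
    rw [hS, mem_compl, mem_insert, mem_neighborFinset, not_or] at hw
    exact hw
  -- in `S` the blue degrees are at most one
  have hmatch : ∀ a ∈ S, ∀ b ∈ S, ∀ c ∈ S, a ≠ b → a ≠ c → b ≠ c → R.Adj a b ∨ R.Adj a c := by
    intro a ha b hb c hc hab hac hbc
    by_contra hcon
    push Not at hcon
    exact key v a b c (hSmem a ha).1.symm (hSmem b hb).1.symm (hSmem c hc).1.symm hab hac hbc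
      (hSmem a ha).2 (hSmem b hb).2 (hSmem c hc).2 hcon.1 hcon.2
  -- four vertices of `S`
  obtain ⟨T, hTS, hTcard⟩ := Finset.exists_subset_card_eq hScard
  obtain ⟨a, b, c, d, hab, hac, had, hbc, hbd, hcd, hT⟩ := Finset.card_eq_four.1 hTcard
  have haS : a ∈ S := hTS (by rw [hT]; simp)
  have hbS : b ∈ S := hTS (by rw [hT]; simp)
  have hcS : c ∈ S := hTS (by rw [hT]; simp)
  have hdS : d ∈ S := hTS (by rw [hT]; simp)
  -- the final contradiction for a blue matching `pq`, `rs` with red cross edges
  have fin : ∀ p ∈ S, ∀ q ∈ S, ∀ r ∈ S, ∀ s ∈ S, p ≠ q → p ≠ r → p ≠ s → q ≠ r → q ≠ s →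
      r ≠ s → ¬ R.Adj p q → ¬ R.Adj r s → R.Adj p r → R.Adj p s → R.Adj q r → R.Adj q s →
      False := by
    intro p hp q hq r hr s hs hpq hpr hps hqr hqs hrs h1 h2 h3 h4 h5 h6
    obtain ⟨x, hx⟩ : ∃ x, x ∉ ({v, p, q, r, s} : Finset V) := by
      by_contra hcon
      push Not at hcon
      have : (Finset.univ : Finset V) ⊆ {v, p, q, r, s} := fun x _ => hcon x
      have := card_le_card this
      rw [card_univ, hV] at this
      have := this.trans card_le_five
      omega
    simp only [mem_insert, mem_singleton, not_or] at hx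
    obtain ⟨hxv, hxp, hxq, hxr, hxs⟩ := hx
    have e1 : R.Adj x p ∨ R.Adj x q := by
      by_contra hcon
      push Not at hcon
      exact key p q v x hpq (hSmem p hp).1 (Ne.symm hxp) (hSmem q hq).1 (Ne.symm hxq)
        (Ne.symm hxv) h1 (fun h => (hSmem p hp).2 h.symm) (fun h => hcon.1 h.symm)
        (fun h => (hSmem q hq).2 h.symm) (fun h => hcon.2 h.symm)
    have e2 : R.Adj x r ∨ R.Adj x s := by
      by_contra hcon
      push Not at hcon
      exact key r s v x hrs (hSmem r hr).1 (Ne.symm hxr) (hSmem s hs).1 (Ne.symm hxs)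
        (Ne.symm hxv) h2 (fun h => (hSmem r hr).2 h.symm) (fun h => hcon.1 h.symm)
        (fun h => (hSmem s hs).2 h.symm) (fun h => hcon.2 h.symm)
    rcases e1 with e1 | e1 <;> rcases e2 with e2 | e2
    · exact no_triangle hR e1 e2 h3
    · exact no_triangle hR e1 e2 h4
    · exact no_triangle hR e1 e2 h5
    · exact no_triangle hR e1 e2 h6
  -- among `b, c, d` two are red to `a`
  have main : ∀ b ∈ S, ∀ c ∈ S, ∀ d ∈ S, a ≠ b → a ≠ c → a ≠ d → b ≠ c → b ≠ d → c ≠ d →
      R.Adj a c → R.Adj a d → False := by
    intro b hb c hc d hd hab hac had hbc hbd hcd h1 h2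
    have h3 : ¬ R.Adj c d := fun h => no_triangle hR h1 h2 h
    have h4 : R.Adj c b := by
      rcases hmatch c hc d hd b hb hcd hbc.symm hbd.symm with h | h
      · exact absurd h h3
      · exact h
    have h5 : R.Adj d b := by
      rcases hmatch d hd c hc b hb hcd.symm hbd.symm hbc.symm with h | h
      · exact absurd h.symm h3
      · exact h
    have h6 : ¬ R.Adj a b := fun h => no_triangle hR h1 h h4
    exact fin a haS b hb c hc d hd hab hac had hbc hbd hcd h6 h3 h1 h2 h4.symm h5.symm
  by_cases h1 : R.Adj a b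
  · by_cases h2 : R.Adj a c
    · exact main d hdS b hbS c hcS had hab hac hbd.symm hcd.symm hbc h1 h2
    · have h3 : R.Adj a d := by
        rcases hmatch a haS c hcS d hdS hac had hcd with h | h
        · exact absurd h h2
        · exact h
      exact main c hcS b hbS d hdS hac hab had hbc.symm hcd hbd h1 h3
  · have h2 : R.Adj a c := by
      rcases hmatch a haS b hbS c hcS hab hac hbc with h | h
      · exact absurd h h1
      · exact h
    have h3 : R.Adj a d := by
      rcases hmatch a haS b hbS d hdS hab had hbd with h | h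
      · exact absurd h h1
      · exact h
    exact main b hbS c hcS d hdS hab hac had hbc hbd hcd h2 h3

end Q119.KG
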