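import Pool.Agent.Q119.KG.Cone

/-!
Disjoint unions of cliques, pendant edges, lower bounds, edge counts (helper119).
-/

namespace Q119.KG

open SimpleGraph Finset

variable {W W' : Type} {α : Type}

/-- a disjoint union of cliques of orders `s i` -/
def cliqueUnion {ι : Type} (s : ι → ℕ) : SimpleGraph (Σ i, Fin (s i)) where
  Adj x y := x.1 = y.1 ∧ x ≠ y
  symm := ⟨fun _ _ h => ⟨h.1.symm, h.2.symm⟩⟩
  loopless := ⟨fun _ h => h.2 rfl⟩

/-- adding a pendant edge at a vertex of an isolated edge `x₀ y₀` -/
def pend (H : SimpleGraph W) (x₀ : W) : SimpleGraph (W ⊕ Fin 1) :=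
  (H ⊕g (⊥ : SimpleGraph (Fin 1))) ⊔ edge (Sum.inl x₀) (Sum.inr 0)

lemma Ar.pend [Fintype W] {H : SimpleGraph W} {x₀ y₀ : W} (hxy : H.Adj x₀ y₀)
    (hx : ∀ w, H.Adj x₀ w → w = y₀) (hy : ∀ w, H.Adj y₀ w → w = x₀) {M M' : ℕ} (h : Ar H M')
    (hM' : M' ≤ M) (hM : Fintype.card W + 3 ≤ M) : Ar (pend H x₀) M := by
  intro V _ R hV hR
  classical
  obtain ⟨f, hf, hf'⟩ := exists_of_contained (h V R (hM'.trans hV) hR)
  have hc : 2 < (Finset.univ.image f)ᶜ.card := by
    rw [card_compl, card_image_of_injective _ hf, card_univ]
    omega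
  have hO : ∀ o ∈ (Finset.univ.image f)ᶜ, ∀ w, f w ≠ o := by
    intro o ho w hw
    rw [mem_compl, mem_image] at ho
    exact ho ⟨w, mem_univ _, hw⟩
  have hadj : ∀ a b : W ⊕ Fin 1, (KG.pend H x₀).Adj a b →
      (∃ w w', a = Sum.inl w ∧ b = Sum.inl w' ∧ H.Adj w w') ∨
      (a = Sum.inl x₀ ∧ b = Sum.inr 0) ∨ (a = Sum.inr 0 ∧ b = Sum.inl x₀) := by
    intro a b hab
    rw [KG.pend, sup_adj] at hab
    rcases hab with hab | hab
    · rcases a with a | a <;> rcases b with b | b
      · exact Or.inl ⟨a, b, rfl, rfl, by simpa using hab⟩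
      · simp at hab
      · simp at hab
      · simp at hab
    · rw [edge_adj] at hab
      rcases hab.1 with ⟨rfl, rfl⟩ | ⟨rfl, rfl⟩
      · exact Or.inr (Or.inl ⟨rfl, rfl⟩)
      · exact Or.inr (Or.inr ⟨rfl, rfl⟩)
  by_cases hA : ∃ o ∈ (Finset.univ.image f)ᶜ, ¬ R.Adj (f x₀) o
  · obtain ⟨o, ho, ho'⟩ := hA
    refine contained_of (Sum.elim f fun _ => o) ?_ ?_
    · refine hf.sumElim (fun a b _ => Subsingleton.elim a b) fun a b => hO o ho a
    · intro a b hab
      rcases hadj a b hab with ⟨w, w', rfl, rfl, h1⟩ | ⟨rfl, rfl⟩ | ⟨rfl, rfl⟩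
      · exact hf' w w' h1
      · exact ho'
      · exact fun h => ho' h.symm
  · push Not at hA
    obtain ⟨o₁, o₂, o₃, h1, h2, h3, h12, h13, h23⟩ := Finset.two_lt_card_iff.1 hc
    have hred : ∀ a ∈ (Finset.univ.image f)ᶜ, ∀ b ∈ (Finset.univ.image f)ᶜ, ¬ R.Adj a b :=
      fun a ha b hb hab => no_triangle hR (hA a ha) (hA b hb) hab
    have hne : x₀ ≠ y₀ := H.ne_of_adj hxy
    set f' : W → V := fun w => if w = x₀ then o₁ else if w = y₀ then o₂ else f w with hf'def
    have e1 : f' x₀ = o₁ := by simp [hf'def]
    have e2 : f' y₀ = o₂ := by simp [hf'def, hne.symm]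
    have e3 : ∀ w, w ≠ x₀ → w ≠ y₀ → f' w = f w := by
      intro w hw hw'
      simp [hf'def, hw, hw']
    have hinj : Function.Injective f' := by
      intro a b hab
      by_cases ha : a = x₀
      · subst ha
        by_cases hb : b = a
        · exact hb.symm
        · by_cases hb' : b = y₀
          · subst hb'; rw [e1, e2] at hab; exact absurd hab h12
          · rw [e1, e3 b hb hb'] at hab
            exact absurd hab.symm (hO o₁ h1 b)
      · by_cases ha' : a = y₀
        · subst ha'
          by_cases hb : b = x₀
          · subst hb; rw [e1, e2] at hab; exact absurd hab.symm h12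
          · by_cases hb' : b = a
            · exact hb'.symm
            · rw [e2, e3 b hb hb'] at hab
              exact absurd hab.symm (hO o₂ h2 b)
        · by_cases hb : b = x₀
          · subst hb; rw [e1, e3 a ha ha'] at hab
            exact absurd hab (hO o₁ h1 a)
          · by_cases hb' : b = y₀
            · subst hb'; rw [e2, e3 a ha ha'] at hab
              exact absurd hab (hO o₂ h2 a)
            · rw [e3 a ha ha', e3 b hb hb'] at hab
              exact hf hab
    refine contained_of (Sum.elim f' fun _ => o₃) ?_ ?_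
    · refine hinj.sumElim (fun a b _ => Subsingleton.elim a b) fun a b => ?_
      by_cases ha : a = x₀
      · rw [ha, e1]; exact h13
      · by_cases ha' : a = y₀
        · rw [ha', e2]; exact h23
        · rw [e3 a ha ha']; exact hO o₃ h3 a
    · intro a b hab
      rcases hadj a b hab with ⟨w, w', rfl, rfl, h⟩ | ⟨rfl, rfl⟩ | ⟨rfl, rfl⟩
      · simp only [Sum.elim_inl]
        by_cases hw : w = x₀
        · subst hw
          rw [hx w' h, e1, e2]
          exact hred _ h1 _ h2
        · by_cases hw' : w = y₀
          · subst hw'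
            rw [hy w' h, e1, e2]
            exact hred _ h2 _ h1
          · have h4 : w' ≠ x₀ := fun hh => hw' (hx w (by rw [← hh]; exact h.symm))
            have h5 : w' ≠ y₀ := fun hh => hw (hy w (by rw [← hh]; exact h.symm))
            rw [e3 w hw hw', e3 w' h4 h5]
            exact hf' w w' h
      · simp only [Sum.elim_inl, Sum.elim_inr, e1]
        exact hred _ h1 _ h3
      · simp only [Sum.elim_inl, Sum.elim_inr, e1]
        exact hred _ h3 _ h1

/-- the red complete bipartite graph is triangle-free -/
lemma bip_cliqueFree (A B : Type) : (completeBipartiteGraph A B).CliqueFree 3 := by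
  have h : (completeBipartiteGraph A B).Colorable 2 := by
    have := (CompleteBipartiteGraph.bicoloring A B).colorable
    simpa using this
  exact h.cliqueFree (by norm_num)

lemma not_bip_adj {A B : Type} {x y : A ⊕ B} (h : ¬ (completeBipartiteGraph A B).Adj x y) :
    x.isLeft = y.isLeft := by
  rcases x with x | x <;> rcases y with y | y <;> simp_all

/-- lower bound for unions of cliques of order at least `c` -/
lemma lower_union {ι : Type} [Fintype ι] (s : ι → ℕ) (c M : ℕ) (hc : 1 ≤ c) (hs : ∀ i, c ≤ s i)
    (hu : 1 ≤ ∑ i, s i) (h : Ar (cliqueUnion s) M) : ∑ i, s i + c - 1 ≤ M := by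
  by_contra hcon
  push Not at hcon
  obtain ⟨f, hf, hf'⟩ := exists_of_contained (h (Fin (∑ i, s i - 1) ⊕ Fin (c - 1))
    (completeBipartiteGraph _ _) (by
      rw [Fintype.card_sum, Fintype.card_fin, Fintype.card_fin]; omega) (bip_cliqueFree _ _))
  have hside : ∀ i (x y : Fin (s i)), (f ⟨i, x⟩).isLeft = (f ⟨i, y⟩).isLeft := by
    intro i x y
    by_cases hxy : x = y
    · rw [hxy]
    · exact not_bip_adj (hf' _ _ ⟨rfl, fun h => hxy (by simpa using h)⟩)
  have hleft : ∀ w, (f w).isLeft = true := by
    rintro ⟨i, x⟩
    by_contra hx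
    have hright : ∀ y : Fin (s i), ∃ z, f ⟨i, y⟩ = Sum.inr z := by
      intro y
      have h1 : ¬ (f ⟨i, y⟩).isLeft = true := by rw [← hside i x y]; exact hx
      rcases hfy : f ⟨i, y⟩ with z | z
      · rw [hfy] at h1; simp at h1
      · exact ⟨z, rfl⟩
    choose z hz using hright
    have hinj : Function.Injective z := by
      intro y y' hyy
      have h1 : f ⟨i, y⟩ = f ⟨i, y'⟩ := by rw [hz, hz, hyy]
      have h2 := hf h1
      simpa using h2
    have := Fintype.card_le_of_injective z hinj
    simp only [Fintype.card_fin] at this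
    have := hs i
    omega
  have hl : ∀ w, ∃ z, f w = Sum.inl z := by
    intro w
    have := hleft w
    rcases hfw : f w with z | z
    · exact ⟨z, rfl⟩
    · rw [hfw] at this; simp at this
  choose z hz using hl
  have hinj : Function.Injective z := by
    intro y y' hyy
    exact hf (by rw [hz, hz, hyy])
  have := Fintype.card_le_of_injective z hinj
  simp only [Fintype.card_fin, Fintype.card_sigma] at this
  omega

/-- lower bound for connected graphs -/
lemma lower_connected [Fintype W] {G : SimpleGraph W} (hG : G.Connected) {M : ℕ} (h : Ar G M) :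
    2 * Fintype.card W - 1 ≤ M := by
  by_contra hcon
  push Not at hcon
  obtain ⟨f, hf, hf'⟩ := exists_of_contained (h (Fin (Fintype.card W - 1) ⊕
    Fin (Fintype.card W - 1)) (completeBipartiteGraph _ _) (by
      rw [Fintype.card_sum, Fintype.card_fin]; omega) (bip_cliqueFree _ _))
  have hside : ∀ a b, (f a).isLeft = (f b).isLeft := by
    intro a b
    have hr := hG.preconnected a b
    rw [reachable_iff_reflTransGen] at hr
    induction hr with
    | refl => rfl
    | tail _ h ih => exact ih.trans (not_bip_adj (hf' _ _ h))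
  obtain ⟨a⟩ := hG.nonempty
  have hpos : 0 < Fintype.card W := Fintype.card_pos_iff.2 ⟨a⟩
  rcases hfa : f a with x | x
  · have hl : ∀ w, ∃ z, f w = Sum.inl z := by
      intro w
      have h1 := hside w a
      rw [hfa] at h1
      rcases hfw : f w with z | z
      · exact ⟨z, rfl⟩
      · rw [hfw] at h1; simp at h1
    choose z hz using hl
    have hinj : Function.Injective z := fun y y' hyy => hf (by rw [hz, hz, hyy])
    have := Fintype.card_le_of_injective z hinj
    simp only [Fintype.card_fin] at this
    omega
  · have hl : ∀ w, ∃ z, f w = Sum.inr z := by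
      intro w
      have h1 := hside w a
      rw [hfa] at h1
      rcases hfw : f w with z | z
      · rw [hfw] at h1; simp at h1
      · exact ⟨z, rfl⟩
    choose z hz using hl
    have hinj : Function.Injective z := fun y y' hyy => hf (by rw [hz, hz, hyy])
    have := Fintype.card_le_of_injective z hinj
    simp only [Fintype.card_fin] at this
    omega

/-! ### Numbers of edges -/

/-- the number of edges -/
noncomputable def e {V : Type} (G : SimpleGraph V) : ℕ := G.edgeSet.ncard

lemma two_mul_e {V : Type} [Fintype V] (G : SimpleGraph V) [DecidableRel G.Adj] :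
    2 * e G = ∑ v, G.degree v := by
  classical
  rw [sum_degrees_eq_twice_card_edges, e, Set.ncard_eq_toFinset_card']
  rfl

lemma e_sum [Finite W] [Finite W'] (G : SimpleGraph W) (H : SimpleGraph W') :
    e (G ⊕g H) = e G + e H := by
  unfold e
  have h1 : Nat.card (G ⊕g H).edgeSet = Nat.card (G.edgeSet ⊕ H.edgeSet) :=
    Nat.card_congr edgeSetSumEquiv
  rw [Nat.card_sum] at h1
  exact h1

lemma e_bot : e (⊥ : SimpleGraph W) = 0 := by
  simp [e]

lemma e_top (n : ℕ) : e (⊤ : SimpleGraph (Fin n)) = n.choose 2 := by
  have h := two_mul_e (⊤ : SimpleGraph (Fin n))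
  simp only [complete_graph_degree, Fintype.card_fin, sum_const, card_univ, smul_eq_mul] at h
  rw [Nat.choose_two_right]
  omega

lemma e_sup_edge {V : Type} [Fintype V] (G : SimpleGraph V) {x y : V} (h : ¬ G.Adj x y)
    (hxy : x ≠ y) : e (G ⊔ edge x y) = e G + 1 := by
  classical
  have h1 := G.card_edgeFinset_sup_edge h hxy
  unfold e
  rw [Set.ncard_eq_toFinset_card', Set.ncard_eq_toFinset_card']
  convert h1 using 2
  · ext; simp
  · congr 1

lemma e_book : e book = 5 := by
  have h1 : book ⊔ edge 2 3 = ⊤ := by
    ext i j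
    rw [sup_adj, edge_adj, top_adj]
    unfold book
    simp only
    revert i j
    decide
  have h2 := e_sup_edge book (x := 2) (y := 3) (by unfold book; simp) (by decide)
  rw [h1, e_top] at h2
  have : Nat.choose 4 2 = 6 := by decide
  omega

lemma e_cone [Fintype α] (K : SimpleGraph α) : e (cone K) = Fintype.card α + e K := by
  classical
  have h1 := two_mul_e (cone K)
  have h2 := two_mul_e K
  rw [Fintype.sum_option] at h1
  have h3 : (cone K).degree none = Fintype.card α := by
    rw [← card_neighborFinset_eq_degree]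
    have : (cone K).neighborFinset none = Finset.univ.image some := by
      ext x
      rw [mem_neighborFinset]
      rcases x with _ | x
      · simp [cone]
      · simp [cone]
    rw [this, card_image_of_injective _ (Option.some_injective _), card_univ]
  have h4 : ∀ a, (cone K).degree (some a) = K.degree a + 1 := by
    intro a
    rw [← card_neighborFinset_eq_degree]
    have : (cone K).neighborFinset (some a) = insert none ((K.neighborFinset a).image some) := by
      ext x
      rw [mem_neighborFinset]
      rcases x with _ | x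
      · simp [cone]
      · simp [cone]
    rw [this, card_insert_of_notMem (by simp), card_image_of_injective _ (Option.some_injective _),
      card_neighborFinset_eq_degree]
  rw [h3] at h1
  simp only [h4, sum_add_distrib, sum_const, card_univ, smul_eq_mul, mul_one] at h1
  omega

lemma e_union {ι : Type} [Fintype ι] (s : ι → ℕ) :
    e (cliqueUnion s) = ∑ i, (s i).choose 2 := by
  classical
  have h1 := two_mul_e (cliqueUnion s)
  have h2 : ∀ w, (cliqueUnion s).degree w = s w.1 - 1 := by
    intro w
    rw [← card_neighborFinset_eq_degree]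
    have h3 : (cliqueUnion s).neighborFinset w =
        (Finset.univ.filter fun y : Σ i, Fin (s i) => y.1 = w.1).erase w := by
      ext y
      rw [mem_neighborFinset, mem_erase, mem_filter]
      simp only [cliqueUnion, mem_univ, true_and]
      constructor
      · rintro ⟨h, h'⟩; exact ⟨h'.symm, h.symm⟩
      · rintro ⟨h, h'⟩; exact ⟨h'.symm, h.symm⟩
    rw [h3, card_erase_of_mem (by simp)]
    congr 1
    rw [← Fintype.card_subtype, Fintype.card_congr (Equiv.sigmaSubtype w.1), Fintype.card_fin]
  simp only [h2] at h1
  rw [Fintype.sum_sigma] at h1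
  simp only [sum_const, card_univ, Fintype.card_fin, smul_eq_mul] at h1
  have h4 : ∀ i, s i * (s i - 1) = 2 * (s i).choose 2 := by
    intro i
    rw [Nat.choose_two_right]
    obtain ⟨k, hk⟩ := Nat.even_mul_pred_self (s i)
    omega
  simp only [h4, ← mul_sum] at h1
  omega

lemma e_pend [Fintype W] (H : SimpleGraph W) (x₀ : W) : e (pend H x₀) = e H + 1 := by
  have h2 : e (H ⊕g (⊥ : SimpleGraph (Fin 1))) = e H := by rw [e_sum, e_bot]; rfl
  rw [← h2]
  exact e_sup_edge _ (by simp) (by simp)

end Q119.KG
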